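import Pool.Agent.H31.EH.Targets

/-!
# Row PMT: the mass of the pairs of different directions
-/

set_option autoImplicit false

open Finset MeasureTheory

namespace Pool.Agent.H37.EH

open Pool.Agent.H24.CL Pool.Agent.H24.LV Pool.Agent.H26.ES Pool.Agent.H31.EH

theorem smono {k : ℕ} {S S' : Finset ℕ} {V : Set (X k)} {Ge : ℕ → Set (X k)}
    {Gd : ℕ → ℕ → Set (X k)} {P m τ Ω : ℝ} (h : SDatP k S V Ge Gd P m τ Ω) (hs : S' ⊆ S) :
    SDatP k S' V Ge Gd P m τ Ω where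
  hk := h.hk
  hP := h.hP
  hm := h.hm
  hτ := h.hτ
  hτ1 := h.hτ1
  hΩ := h.hΩ
  pr := fun p hp => h.pr p (hs hp)
  mV := h.mV
  mE := fun p hp => h.mE p (hs hp)
  mG := fun p hp => h.mG p (hs hp)
  sub := fun p hp => h.sub p (hs hp)
  invE := fun p hp => h.invE p (hs hp)
  inv := fun p hp => h.inv p (hs hp)
  uni := fun p hp => h.uni p (hs hp)
  den := fun p hp => h.den p (hs hp)
  fib2 := fun p hp q hq => h.fib2 p (hs hp) q (hs hq)
  ms := fun p hp => h.ms p (hs hp)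

theorem pf_PMT : T_PMS → T_PMB → T_TTS → T_PMT := by
  intro hPMS hPMB hTTS k hk
  obtain ⟨C, hC1, hC⟩ := hPMB k hk
  refine ⟨C, hC1, ?_⟩
  intro Q V Ge Gd P m τ Ω kap kap' hD hkap hkap1 hkap' S₁ hS₁ S₂ hS₂ hdis
  have h12 : SDatP k (S₁ ∪ S₂) V Ge Gd P m τ Ω := smono hD.dat (union_subset hS₁ hS₂)
  refine (hPMS k S₁ S₂ V Ge Gd P m τ Ω hdis h12).trans ?_
  have hone : ∀ p ∈ S₁, PM k {p} S₂ V Gd ≤
      (S₂.card * (C * m ^ 3 / (kap ^ 3 * P) + kap ^ 2) / kap' + 2 * kap' + k * m / P) * Ω := by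
    intro p hp
    have hp2 : p ∉ S₂ := fun h => (disjoint_left.1 hdis) hp h
    have hpQ : p ∈ Q := hS₁ hp
    have hsp : SDatP k (S₂ ∪ {p}) V Ge Gd P m τ Ω :=
      smono hD.dat (union_subset hS₂ (singleton_subset_iff.2 hpQ))
    have h1 := hTTS k p S₂ V Ge Gd P m τ Ω kap' hp2 hsp (hD.fib p hpQ) hkap'
    have h2 := hPMS k S₂ {p} V Ge Gd P m τ Ω (disjoint_singleton_right.2 hp2) hsp
    have h3 : ∑ q ∈ S₂, PM k {q} {p} V Gd ≤
        S₂.card * ((C * m ^ 3 / (kap ^ 3 * P) + kap ^ 2) * Ω) := by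
      rw [← nsmul_eq_mul]
      refine sum_le_card_nsmul _ _ _ fun q hq => ?_
      exact hC Q V Ge Gd P m τ Ω kap hD.dat hkap hkap1 q (hS₂ hq) p hpQ
        (fun h => hp2 (h ▸ hq))
    have h4 : PM k S₂ {p} V Gd / kap' ≤
        S₂.card * ((C * m ^ 3 / (kap ^ 3 * P) + kap ^ 2) * Ω) / kap' :=
      div_le_div_of_nonneg_right (h2.trans h3) hkap'.le
    calc PM k {p} S₂ V Gd ≤ PM k S₂ {p} V Gd / kap' + (2 * kap' + k * m / P) * Ω := h1
      _ ≤ S₂.card * ((C * m ^ 3 / (kap ^ 3 * P) + kap ^ 2) * Ω) / kap' +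
          (2 * kap' + k * m / P) * Ω := by linarith
      _ = _ := by ring
  calc ∑ p ∈ S₁, PM k {p} S₂ V Gd ≤ ∑ _p ∈ S₁,
        (S₂.card * (C * m ^ 3 / (kap ^ 3 * P) + kap ^ 2) / kap' + 2 * kap' + k * m / P) * Ω :=
        sum_le_sum hone
    _ = _ := by rw [sum_const, nsmul_eq_mul]; ring

end Pool.Agent.H37.EH
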