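import Pool.Agent.H31.EH.Targets

/-!
# Row TTS: one prime against a block
-/

set_option autoImplicit false

open Finset MeasureTheory

namespace Pool.Agent.H37.EH

open Pool.Agent.H24.CL Pool.Agent.H24.LV Pool.Agent.H26.ES Pool.Agent.H31.EH

theorem tts_split {α : Type*} [MeasureSpace α] [IsFiniteMeasure (volume : Measure α)]
    {A : Set α} (hA : MeasurableSet A) {f g s : α → ℝ} (hf : Measurable f) (hg : Measurable g)
    (hs : Measurable s) (f0 : ∀ b, 0 ≤ f b) (f1 : ∀ b, f b ≤ 1) (g0 : ∀ b, 0 ≤ g b)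
    (g1 : ∀ b, g b ≤ 1) {kap : ℝ} (hk : 0 < kap) :
    ∫ b in A, f b ≤ (∫ b in A, g b) / kap + volume.real {b | b ∈ A ∧ g b < kap ∧ s b < kap} +
      ∫ b in {b | b ∈ A ∧ g b < kap ∧ kap ≤ s b}, f b := by
  set B1 : Set α := {b | b ∈ A ∧ g b < kap ∧ s b < kap} with hB1
  set B2 : Set α := {b | b ∈ A ∧ g b < kap ∧ kap ≤ s b} with hB2
  have mB1 : MeasurableSet B1 :=
    hA.inter ((measurableSet_lt hg measurable_const).inter (measurableSet_lt hs measurable_const))
  have mB2 : MeasurableSet B2 :=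
    hA.inter ((measurableSet_lt hg measurable_const).inter (measurableSet_le measurable_const hs))
  have If : Integrable f := Integrable.of_bound hf.aestronglyMeasurable 1
    (Filter.Eventually.of_forall fun b => by
      rw [Real.norm_eq_abs, abs_of_nonneg (f0 b)]; exact f1 b)
  have Ig : Integrable g := Integrable.of_bound hg.aestronglyMeasurable 1
    (Filter.Eventually.of_forall fun b => by
      rw [Real.norm_eq_abs, abs_of_nonneg (g0 b)]; exact g1 b)
  have I1 : Integrable (fun _ : α => (1 : ℝ)) := integrable_const _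
  have hpt : ∀ b, A.indicator f b ≤
      A.indicator g b / kap + B1.indicator (fun _ => (1 : ℝ)) b + B2.indicator f b := by
    intro b
    have n1 : 0 ≤ B1.indicator (fun _ => (1 : ℝ)) b :=
      Set.indicator_nonneg (fun _ _ => zero_le_one) b
    have n2 : 0 ≤ B2.indicator f b := Set.indicator_nonneg (fun x _ => f0 x) b
    by_cases hb : b ∈ A
    · rw [Set.indicator_of_mem hb, Set.indicator_of_mem hb]
      by_cases h1 : kap ≤ g b
      · have : 1 ≤ g b / kap := by rw [le_div_iff₀ hk]; linarith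
        have := f1 b
        linarith
      · have h1' : g b < kap := not_le.1 h1
        have n3 : 0 ≤ g b / kap := div_nonneg (g0 b) hk.le
        by_cases h2 : s b < kap
        · have : b ∈ B1 := ⟨hb, h1', h2⟩
          rw [Set.indicator_of_mem this]
          have := f1 b
          linarith
        · have : b ∈ B2 := ⟨hb, h1', not_lt.1 h2⟩
          rw [Set.indicator_of_mem this]
          linarith
    · rw [Set.indicator_of_notMem hb, Set.indicator_of_notMem hb]
      simp only [zero_div]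
      linarith
  have hmono := integral_mono (If.indicator hA)
    ((((Ig.indicator hA).div_const kap).add (I1.indicator mB1)).add (If.indicator mB2)) hpt
  rw [integral_indicator hA] at hmono
  rw [integral_add' (((Ig.indicator hA).div_const kap).add (I1.indicator mB1))
    (If.indicator mB2), integral_add' ((Ig.indicator hA).div_const kap) (I1.indicator mB1),
    integral_div, integral_indicator hA, integral_indicator mB1, integral_indicator mB2] at hmono
  simpa using hmono

theorem pf_TTS : T_PMI → T_TT1 → T_TT2 → T_MEA → T_COL → T_TTS := by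
  intro hPMI hTT1 hTT2 hMEA _ k p S V Ge Gd P m τ Ω kap hp hS hcnt hkap
  have hcomm : {p} ∪ S = S ∪ {p} := union_comm _ _
  have hS' : SDatP k ({p} ∪ S) V Ge Gd P m τ Ω := hcomm ▸ hS
  have hd1 : Disjoint {p} S := disjoint_singleton_left.2 hp
  have hd2 : Disjoint S {p} := disjoint_singleton_right.2 hp
  have e1 := hPMI k {p} S V Ge Gd P m τ Ω hd1 hS'
  have e2 := hPMI k S {p} V Ge Gd P m τ Ω hd2 hS
  have t1 := hTT1 k p S V Ge Gd P m τ Ω kap hp hS hkap
  have t2 := hTT2 k p S V Ge Gd P m τ Ω kap hp hS hcnt hkap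
  have M1 := hMEA k {p} S V Ge Gd P m τ Ω hS'
  have M2 := hMEA k S {p} V Ge Gd P m τ Ω hS
  have M3 := hMEA k (S ∪ {p}) (S ∪ {p}) V Ge Gd P m τ Ω (by rw [union_self]; exact hS)
  obtain ⟨-, -, -, -, -, -, modp, -, -, -, bodp, -⟩ := M1
  obtain ⟨-, -, -, -, -, -, mod2, msd2, -, -, bod2, bsd2⟩ := M2
  obtain ⟨mst, -⟩ := M3
  rw [hcomm] at e1
  set D : ℕ := DS (S ∪ {p}) with hD
  unfold mass at t1
  have hn : 0 ≤ (D : ℝ) ^ (KN k - k) := by positivity
  have hn1 : (0 : ℝ) ≤ 1 / (D : ℝ) := by positivity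
  have hx : ∀ x ∈ range D, ∫ b in {b : X k | StarP (S ∪ {p}) V Gd b x},
        od {p} S V Gd b (x % DS {p}) ≤
      (∫ b in {b : X k | StarP (S ∪ {p}) V Gd b x}, od S {p} V Gd b (x % DS S)) / kap +
      volume.real {b : X k | StarP (S ∪ {p}) V Gd b x ∧
        od S {p} V Gd b (x % DS S) < kap ∧ sd S {p} V Gd b (x % DS S) < kap} +
      ∫ b in {b : X k | StarP (S ∪ {p}) V Gd b x ∧
        od S {p} V Gd b (x % DS S) < kap ∧ kap ≤ sd S {p} V Gd b (x % DS S)},
          od {p} S V Gd b (x % DS {p}) := by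
    intro x _
    exact tts_split (A := {b : X k | StarP (S ∪ {p}) V Gd b x})
      (f := fun b => od {p} S V Gd b (x % DS {p})) (g := fun b => od S {p} V Gd b (x % DS S))
      (s := fun b => sd S {p} V Gd b (x % DS S)) (mst x) (modp _) (mod2 _) (msd2 _)
      (fun b => (bodp b _).1) (fun b => (bodp b _).2) (fun b => (bod2 b _).1)
      (fun b => (bod2 b _).2) hkap
  have hsum := sum_le_sum hx
  rw [sum_add_distrib, sum_add_distrib, ← sum_div] at hsum
  have hmul := mul_le_mul_of_nonneg_left (mul_le_mul_of_nonneg_left hsum hn1) hn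
  rw [e1, e2]
  refine hmul.trans ?_
  calc _ = ((D : ℝ) ^ (KN k - k) * ((1 / (D : ℝ)) *
      ∑ x ∈ range D, ∫ b in {b : X k | StarP (S ∪ {p}) V Gd b x},
        od S {p} V Gd b (x % DS S))) / kap +
      ((D : ℝ) ^ (KN k - k) * ((1 / (D : ℝ)) * ∑ x ∈ range D,
        volume.real {b : X k | StarP (S ∪ {p}) V Gd b x ∧
        od S {p} V Gd b (x % DS S) < kap ∧ sd S {p} V Gd b (x % DS S) < kap}) +
      (D : ℝ) ^ (KN k - k) * ((1 / (D : ℝ)) *
      ∑ x ∈ range D, ∫ b in {b : X k | StarP (S ∪ {p}) V Gd b x ∧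
        od S {p} V Gd b (x % DS S) < kap ∧ kap ≤ sd S {p} V Gd b (x % DS S)},
          od {p} S V Gd b (x % DS {p}))) := by ring
    _ ≤ _ := by
      refine add_le_add le_rfl ?_
      calc _ ≤ 2 * kap * Ω + k * m / P * Ω := add_le_add t1 t2
        _ = _ := by ring

end Pool.Agent.H37.EH
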